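import Mathlib

/-!
# Deterministic versus entanglement-assisted quantum communication for `f(x ∧ y)`

We show that the deterministic communication complexity of `F(x, y) = f(x ∧ y)` is not bounded by
any function (in particular not by any polynomial) of its entanglement-assisted bounded-error
quantum communication complexity. The function is `f(z) = 1` iff `z` has at most one zero.
-/

namespace Pool.Agent.Results.MP_799357_lc.DetVsQuantum

open Finset

/-- The two-party function `F(x, y) = f(x ∧ y)`. -/
def andComp {n : ℕ} (f : (Fin n → Bool) → Bool) (x y : Fin n → Bool) : Bool :=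
  f (fun i => x i && y i)

/-! ### Deterministic protocols -/

/-- Deterministic two-party protocols: binary trees. At a node `alice φ p₀ p₁` Alice, who holds
`x`, sends the bit `φ x`, and the protocol continues with `p₁` if the bit is `true` and with `p₀`
otherwise; similarly for `bob`. A leaf `output b` outputs `b`. -/
inductive DetProtocol (X Y : Type) : Type
  | output (b : Bool) : DetProtocol X Y
  | alice (φ : X → Bool) (p₀ p₁ : DetProtocol X Y) : DetProtocol X Y
  | bob (ψ : Y → Bool) (p₀ p₁ : DetProtocol X Y) : DetProtocol X Y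

/-- The worst-case number of bits exchanged: the depth of the tree. -/
def DetProtocol.cost {X Y : Type} : DetProtocol X Y → ℕ
  | .output _ => 0
  | .alice _ p₀ p₁ => 1 + max p₀.cost p₁.cost
  | .bob _ p₀ p₁ => 1 + max p₀.cost p₁.cost

/-- The output of the protocol on input `(x, y)`. -/
def DetProtocol.eval {X Y : Type} : DetProtocol X Y → X → Y → Bool
  | .output b, _, _ => b
  | .alice φ p₀ p₁, x, y => if φ x = true then p₁.eval x y else p₀.eval x y
  | .bob ψ p₀ p₁, x, y => if ψ y = true then p₁.eval x y else p₀.eval x y

/-- `D(F)`: the least worst-case number of bits exchanged by a deterministic protocol that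
outputs `F x y` on every input. -/
noncomputable def D {X Y : Type} (F : X → Y → Bool) : ℕ :=
  sInf {c : ℕ | ∃ P : DetProtocol X Y, (∀ x y, P.eval x y = F x y) ∧ P.cost = c}

/-! ### Quantum protocols with prior entanglement -/

/-- A quantum protocol with prior entanglement. The joint system consists of Alice's register
(with finite computational basis `A`), a one-qubit channel (basis `Bool`) and Bob's register
(with finite computational basis `B`). The registers start in an arbitrary joint unit vector
`init` (the prior entangled state, independent of the inputs) and the channel in the state `0`.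
In turn `t` one party applies a unitary depending on its own input to its own register together
with the channel qubit, and then passes the channel qubit to the other party. The parties take
turns: turns `0, 2, 4, …` belong to Alice if `aliceFirst` is `true` and to Bob otherwise. -/
structure QProtocol (X Y : Type) where
  /-- basis of Alice's register -/
  A : Type
  /-- basis of Bob's register -/
  B : Type
  [fintypeA : Fintype A]
  [decEqA : DecidableEq A]
  [fintypeB : Fintype B]
  [decEqB : DecidableEq B]
  /-- prior entangled state -/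
  init : A → B → ℂ
  init_norm : ∑ a, ∑ b, ‖init a b‖ ^ 2 = 1
  /-- does Alice send the first qubit? -/
  aliceFirst : Bool
  /-- number of turns, i.e. number of qubits exchanged -/
  turns : ℕ
  /-- Alice's unitary in turn `t` on input `x` -/
  UA : ℕ → X → Matrix (A × Bool) (A × Bool) ℂ
  UA_unitary : ∀ t x, UA t x ∈ Matrix.unitaryGroup (A × Bool) ℂ
  /-- Bob's unitary in turn `t` on input `y` -/
  UB : ℕ → Y → Matrix (Bool × B) (Bool × B) ℂ
  UB_unitary : ∀ t y, UB t y ∈ Matrix.unitaryGroup (Bool × B) ℂ

attribute [instance] QProtocol.fintypeA QProtocol.decEqA QProtocol.fintypeB QProtocol.decEqB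

/-- The amplitudes (of `a`, channel `q`, `b`) of the joint state after `t` turns on input
`(x, y)`. -/
noncomputable def QProtocol.state {X Y : Type} (P : QProtocol X Y) (x : X) (y : Y) :
    ℕ → P.A → Bool → P.B → ℂ
  | 0 => fun a q b => if q = false then P.init a b else 0
  | t + 1 => fun a q b =>
      if (decide (t % 2 = 0)) = P.aliceFirst then
        ∑ p : P.A × Bool, P.UA t x (a, q) p * P.state x y t p.1 p.2 b
      else
        ∑ p : Bool × P.B, P.UB t y (q, b) p * P.state x y t a p.1 p.2

/-- The probability that measuring the channel qubit after the last turn gives `r`; the result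
of this measurement is the output of the protocol. -/
noncomputable def QProtocol.outputProb {X Y : Type} (P : QProtocol X Y) (x : X) (y : Y)
    (r : Bool) : ℝ :=
  ∑ a, ∑ b, ‖P.state x y P.turns a r b‖ ^ 2

/-- The protocol outputs `F x y` with probability at least `2/3` on every input. -/
def QProtocol.Computes {X Y : Type} (P : QProtocol X Y) (F : X → Y → Bool) : Prop :=
  ∀ x y, (2 : ℝ) / 3 ≤ P.outputProb x y (F x y)

/-- `Q*_{1/3}(F)`: the least number of qubits exchanged by a quantum protocol with arbitrary
prior entanglement that outputs `F x y` with probability at least `2/3` on every input. -/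
noncomputable def Qstar {X Y : Type} (F : X → Y → Bool) : ℕ :=
  sInf {c : ℕ | ∃ P : QProtocol X Y, P.Computes F ∧ P.turns = c}

/-! ### Sanity check: the outcome probabilities add up to one -/

theorem unitary_norm {I : Type} [Fintype I] [DecidableEq I] (U : Matrix I I ℂ)
    (hU : U ∈ Matrix.unitaryGroup I ℂ) (v : I → ℂ) :
    ∑ i, ‖∑ j, U i j * v j‖ ^ 2 = ∑ i, ‖v i‖ ^ 2 := by
  have h1 : star U * U = 1 := (Matrix.mem_unitaryGroup_iff').1 hU
  have key : ∀ w : I → ℂ, ((∑ i, ‖w i‖ ^ 2 : ℝ) : ℂ) = star w ⬝ᵥ w := by
    intro w
    rw [dotProduct, Complex.ofReal_sum]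
    refine Finset.sum_congr rfl fun i _ => ?_
    rw [Pi.star_apply, Complex.star_def, ← Complex.normSq_eq_conj_mul_self,
      Complex.normSq_eq_norm_sq]
  have h2 : (fun i => ∑ j, U i j * v j) = U.mulVec v := rfl
  have h3 : ((∑ i, ‖(U.mulVec v) i‖ ^ 2 : ℝ) : ℂ) = ((∑ i, ‖v i‖ ^ 2 : ℝ) : ℂ) := by
    rw [key, key, Matrix.star_mulVec, Matrix.dotProduct_mulVec, Matrix.vecMul_vecMul,
      ← Matrix.star_eq_conjTranspose, h1, Matrix.vecMul_one]
  have h4 := Complex.ofReal_injective h3
  exact h4

theorem QProtocol.state_norm {X Y : Type} (P : QProtocol X Y) (x : X) (y : Y) (t : ℕ) :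
    ∑ a, ∑ q, ∑ b, ‖P.state x y t a q b‖ ^ 2 = 1 := by
  have hswap : ∀ g : P.A → Bool → P.B → ℝ,
      ∑ a, ∑ q, ∑ b, g a q b = ∑ b, ∑ a, ∑ q, g a q b := by
    intro g
    rw [Finset.sum_comm (s := (Finset.univ : Finset P.B))]
    exact Finset.sum_congr rfl fun a _ => Finset.sum_comm
  induction t with
  | zero =>
    simp only [QProtocol.state]
    simp [P.init_norm]
  | succ t ih =>
    by_cases h : (decide (t % 2 = 0)) = P.aliceFirst
    · have h1 : ∀ a q b, P.state x y (t + 1) a q b =
          ∑ p : P.A × Bool, P.UA t x (a, q) p * P.state x y t p.1 p.2 b :=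
        fun a q b => if_pos h
      simp only [h1]
      rw [hswap] at ih ⊢
      rw [← ih]
      refine Finset.sum_congr rfl fun b _ => ?_
      have h3 := unitary_norm (P.UA t x) (P.UA_unitary t x)
        (fun p => P.state x y t p.1 p.2 b)
      rw [Fintype.sum_prod_type, Fintype.sum_prod_type] at h3
      exact h3
    · have h1 : ∀ a q b, P.state x y (t + 1) a q b =
          ∑ p : Bool × P.B, P.UB t y (q, b) p * P.state x y t a p.1 p.2 :=
        fun a q b => if_neg h
      simp only [h1]
      rw [← ih]
      refine Finset.sum_congr rfl fun a _ => ?_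
      have h3 := unitary_norm (P.UB t y) (P.UB_unitary t y)
        (fun p => P.state x y t a p.1 p.2)
      rw [Fintype.sum_prod_type, Fintype.sum_prod_type] at h3
      exact h3

theorem QProtocol.outputProb_add {X Y : Type} (P : QProtocol X Y) (x : X) (y : Y) :
    P.outputProb x y true + P.outputProb x y false = 1 := by
  have h := P.state_norm x y P.turns
  rw [← h]
  simp only [QProtocol.outputProb, ← Finset.sum_add_distrib, Fintype.sum_bool]

/-! ### The deterministic lower bound -/

theorem fooling {X Y : Type} (P : DetProtocol X Y) {ι : Type} (S : Finset ι)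
    (x : ι → X) (y : ι → Y) (h : ∀ s ∈ S, P.eval (x s) (y s) = true)
    (h' : ∀ s ∈ S, ∀ t ∈ S, s ≠ t → P.eval (x s) (y t) = false) :
    S.card ≤ 2 ^ P.cost := by
  classical
  induction P generalizing S with
  | output b =>
    simp only [DetProtocol.cost, pow_zero]
    by_contra hS
    push Not at hS
    obtain ⟨s, hs, t, ht, hst⟩ := Finset.one_lt_card.1 hS
    have h1 := h s hs
    have h2 := h' s hs t ht hst
    simp only [DetProtocol.eval] at h1 h2
    rw [h1] at h2
    exact absurd h2 (by simp)
  | alice φ p₀ p₁ ih₀ ih₁ =>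
    have e0 : (S.filter fun s => ¬ φ (x s) = true).card ≤ 2 ^ p₀.cost := by
      apply ih₀
      · intro s hs
        rw [Finset.mem_filter] at hs
        have := h s hs.1
        simpa [DetProtocol.eval, hs.2] using this
      · intro s hs t ht hst
        rw [Finset.mem_filter] at hs ht
        have := h' s hs.1 t ht.1 hst
        simpa [DetProtocol.eval, hs.2] using this
    have e1 : (S.filter fun s => φ (x s) = true).card ≤ 2 ^ p₁.cost := by
      apply ih₁
      · intro s hs
        rw [Finset.mem_filter] at hs
        have := h s hs.1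
        simpa [DetProtocol.eval, hs.2] using this
      · intro s hs t ht hst
        rw [Finset.mem_filter] at hs ht
        have := h' s hs.1 t ht.1 hst
        simpa [DetProtocol.eval, hs.2] using this
    have e2 := Finset.card_filter_add_card_filter_not (s := S) (fun s => φ (x s) = true)
    have e3 : 2 ^ p₀.cost ≤ 2 ^ max p₀.cost p₁.cost :=
      Nat.pow_le_pow_right (by norm_num) (le_max_left _ _)
    have e4 : 2 ^ p₁.cost ≤ 2 ^ max p₀.cost p₁.cost :=
      Nat.pow_le_pow_right (by norm_num) (le_max_right _ _)
    simp only [DetProtocol.cost]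
    rw [pow_add]
    omega
  | bob ψ p₀ p₁ ih₀ ih₁ =>
    have e0 : (S.filter fun s => ¬ ψ (y s) = true).card ≤ 2 ^ p₀.cost := by
      apply ih₀
      · intro s hs
        rw [Finset.mem_filter] at hs
        have := h s hs.1
        simpa [DetProtocol.eval, hs.2] using this
      · intro s hs t ht hst
        rw [Finset.mem_filter] at hs ht
        have := h' s hs.1 t ht.1 hst
        simpa [DetProtocol.eval, ht.2] using this
    have e1 : (S.filter fun s => ψ (y s) = true).card ≤ 2 ^ p₁.cost := by
      apply ih₁
      · intro s hs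
        rw [Finset.mem_filter] at hs
        have := h s hs.1
        simpa [DetProtocol.eval, hs.2] using this
      · intro s hs t ht hst
        rw [Finset.mem_filter] at hs ht
        have := h' s hs.1 t ht.1 hst
        simpa [DetProtocol.eval, ht.2] using this
    have e2 := Finset.card_filter_add_card_filter_not (s := S) (fun s => ψ (y s) = true)
    have e3 : 2 ^ p₀.cost ≤ 2 ^ max p₀.cost p₁.cost :=
      Nat.pow_le_pow_right (by norm_num) (le_max_left _ _)
    have e4 : 2 ^ p₁.cost ≤ 2 ^ max p₀.cost p₁.cost :=
      Nat.pow_le_pow_right (by norm_num) (le_max_right _ _)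
    simp only [DetProtocol.cost]
    rw [pow_add]
    omega

/-- Every function on finite domains has a deterministic protocol. -/
theorem exists_detProtocol {X Y : Type} [DecidableEq X] (F : X → Y → Bool) (S : Finset X) :
    ∃ P : DetProtocol X Y, ∀ x ∈ S, ∀ y, P.eval x y = F x y := by
  induction S using Finset.induction_on with
  | empty => exact ⟨.output true, by simp⟩
  | insert a S _ ih =>
    obtain ⟨P, hP⟩ := ih
    refine ⟨.alice (fun x => decide (x = a)) P (.bob (F a) (.output false) (.output true)), ?_⟩
    intro x hx y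
    by_cases hxa : x = a
    · subst hxa
      simp only [DetProtocol.eval, decide_true, if_true]
      cases F x y <;> simp
    · have : x ∈ S := by
        rw [Finset.mem_insert] at hx
        tauto
      simp only [DetProtocol.eval, hxa, decide_false]
      simpa using hP x this y

theorem D_mem {X Y : Type} [DecidableEq X] [Fintype X] (F : X → Y → Bool) :
    ∃ P : DetProtocol X Y, (∀ x y, P.eval x y = F x y) ∧ P.cost = D F := by
  obtain ⟨P, hP⟩ := exists_detProtocol F Finset.univ
  exact Nat.sInf_mem (s := {c : ℕ | ∃ P : DetProtocol X Y, (∀ x y, P.eval x y = F x y) ∧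
    P.cost = c}) ⟨P.cost, P, fun x y => hP x (Finset.mem_univ _) y, rfl⟩

/-! ### The function -/

/-- The set of coordinates where `z` is `0`. -/
def zeros {n : ℕ} (z : Fin n → Bool) : Finset (Fin n) :=
  Finset.univ.filter fun i => z i = false

/-- `f z = 1` iff `z` has at most one zero. -/
def f₁ (n : ℕ) (z : Fin n → Bool) : Bool := decide ((zeros z).card ≤ 1)

theorem zeros_and {n : ℕ} (x y : Fin n → Bool) :
    zeros (fun i => x i && y i) = zeros x ∪ zeros y := by
  ext i
  simp only [zeros, Finset.mem_filter, Finset.mem_univ, true_and, Finset.mem_union]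
  cases x i <;> cases y i <;> simp

/-- The string with a single zero, at `i`. -/
def single {n : ℕ} (i : Fin n) : Fin n → Bool := fun j => decide (j ≠ i)

theorem zeros_single {n : ℕ} (i : Fin n) : zeros (single i) = {i} := by
  ext j
  simp [zeros, single]

theorem le_D (M : ℕ) : M ≤ D (andComp (f₁ (2 ^ M))) := by
  obtain ⟨P, hP, hc⟩ := D_mem (andComp (f₁ (2 ^ M)))
  have h := fooling P (Finset.univ : Finset (Fin (2 ^ M))) single single
    (by
      intro s _
      rw [hP]
      simp only [andComp, f₁, zeros_and, zeros_single, Finset.union_idempotent,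
        Finset.card_singleton, le_refl, decide_true])
    (by
      intro s _ t _ hst
      rw [hP]
      simp only [andComp, f₁, zeros_and, zeros_single]
      rw [decide_eq_false_iff_not, not_le]
      have : ({s} ∪ {t} : Finset (Fin (2 ^ M))).card = 2 := by
        rw [Finset.card_union_of_disjoint (by simpa using hst)]
        simp
      omega)
  rw [hc] at h
  simp only [Finset.card_univ, Fintype.card_fin] at h
  exact (Nat.pow_le_pow_iff_right (by norm_num)).1 h

/-! ### The quantum protocol -/

/-- Permutation matrices. -/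
def permM {I : Type} [Fintype I] [DecidableEq I] (σ : Equiv.Perm I) : Matrix I I ℂ :=
  fun p q => if p = σ q then 1 else 0

theorem permM_unitary {I : Type} [Fintype I] [DecidableEq I] (σ : Equiv.Perm I) :
    permM σ ∈ Matrix.unitaryGroup I ℂ := by
  rw [Matrix.mem_unitaryGroup_iff]
  ext p q
  rw [Matrix.mul_apply]
  simp only [permM, Matrix.star_apply, Matrix.one_apply]
  rw [Finset.sum_eq_single (σ.symm p)]
  · by_cases h : p = q
    · subst h; simp
    · have h2 : ¬ q = p := fun e => h e.symm
      simp [h, h2]
  · intro r _ hr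
    rw [if_neg, zero_mul]
    rintro rfl
    exact hr (by simp)
  · simp

theorem permM_sum {I : Type} [Fintype I] [DecidableEq I] (σ : Equiv.Perm I) (ψ : I → ℂ) (p : I) :
    ∑ q, permM σ p q * ψ q = ψ (σ.symm p) := by
  simp only [permM]
  rw [Finset.sum_eq_single (σ.symm p)]
  · simp
  · intro r _ hr
    rw [if_neg, zero_mul]
    rintro rfl
    exact hr (by simp)
  · simp

/-- The state which is the uniform superposition (with amplitude `c`) of the basis states
`(s, κ s, β s)`. -/
noncomputable def cl {S B : Type} [Fintype S] [DecidableEq S] [DecidableEq B] (c : ℂ)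
    (κ : S → Bool) (β : S → B) (a : S) (q : Bool) (b : B) : ℂ :=
  if κ a = q ∧ β a = b then c else 0

theorem stepA {S B : Type} [Fintype S] [DecidableEq S] [Fintype B] [DecidableEq B] (c : ℂ)
    (κ : S → Bool) (β : S → B) (σ : Equiv.Perm (S × Bool)) (κ' : S → Bool)
    (hσ : ∀ s, σ (s, κ s) = (s, κ' s)) (hσ' : ∀ p, (σ p).1 = p.1) (a : S) (q : Bool) (b : B) :
    ∑ p : S × Bool, permM σ (a, q) p * cl c κ β p.1 p.2 b = cl c κ' β a q b := by
  rw [permM_sum σ (fun p => cl c κ β p.1 p.2 b)]
  obtain ⟨r, hr⟩ : ∃ r, σ.symm (a, q) = r := ⟨_, rfl⟩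
  rw [hr]
  have h1 : σ r = (a, q) := by rw [← hr]; simp
  have h2 : r.1 = a := by rw [← hσ' r, h1]
  obtain ⟨r1, r2⟩ := r
  simp only at h2
  subst h2
  simp only [cl]
  have h3 : κ r1 = r2 ↔ κ' r1 = q := by
    constructor
    · rintro rfl
      rw [hσ] at h1
      exact (Prod.ext_iff.1 h1).2
    · intro h
      have h4 : σ (r1, κ r1) = σ (r1, r2) := by rw [h1, hσ, h]
      exact (Prod.ext_iff.1 (σ.injective h4)).2
  simp only [h3]

theorem stepB {S B : Type} [Fintype S] [DecidableEq S] [Fintype B] [DecidableEq B] (c : ℂ)
    (κ : S → Bool) (β : S → B) (σ : Equiv.Perm (Bool × B)) (κ' : S → Bool) (β' : S → B)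
    (hσ : ∀ s, σ (κ s, β s) = (κ' s, β' s)) (a : S) (q : Bool) (b : B) :
    ∑ p : Bool × B, permM σ (q, b) p * cl c κ β a p.1 p.2 = cl c κ' β' a q b := by
  rw [permM_sum σ (fun p => cl c κ β a p.1 p.2)]
  obtain ⟨r, hr⟩ : ∃ r, σ.symm (q, b) = r := ⟨_, rfl⟩
  rw [hr]
  have h1 : σ r = (q, b) := by rw [← hr]; simp
  simp only [cl]
  have h3 : (κ a = r.1 ∧ β a = r.2) ↔ (κ' a = q ∧ β' a = b) := by
    rw [← Prod.mk.injEq, ← Prod.mk.injEq, ← h1, ← hσ a, σ.injective.eq_iff]
  simp only [h3]

theorem prob_cl {S B : Type} [Fintype S] [DecidableEq S] [Fintype B] [DecidableEq B] (c : ℂ)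
    (κ : S → Bool) (β : S → B) (r : Bool) :
    ∑ a : S, ∑ b : B, ‖cl c κ β a r b‖ ^ 2 =
      ((Finset.univ.filter fun a => κ a = r).card : ℝ) * ‖c‖ ^ 2 := by
  have h1 : ∀ a : S, ∑ b : B, ‖cl c κ β a r b‖ ^ 2 = if κ a = r then ‖c‖ ^ 2 else 0 := by
    intro a
    simp only [cl]
    by_cases h : κ a = r
    · simp only [h, true_and, if_true]
      rw [Finset.sum_eq_single (β a)]
      · simp
      · intro b _ hb
        rw [if_neg (fun e => hb e.symm)]
        simp
      · simp
    · simp [h]
  simp only [h1]
  rw [← Finset.sum_filter, Finset.sum_const, nsmul_eq_mul]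

/-- The XOR permutation on `(h, q)`. -/
def xorPerm {S : Type} (m : S → Bool) : Equiv.Perm (S × Bool) where
  toFun p := (p.1, xor p.2 (m p.1))
  invFun p := (p.1, xor p.2 (m p.1))
  left_inv p := by
    obtain ⟨a, b⟩ := p
    simp
  right_inv p := by
    obtain ⟨a, b⟩ := p
    simp

/-- Bob's first permutation: store the channel qubit. -/
def swapPerm (S : Type) : Equiv.Perm (Bool × (S × Bool × Bool)) where
  toFun p := (p.2.2.1, (p.2.1, p.1, p.2.2.2))
  invFun p := (p.2.2.1, (p.2.1, p.1, p.2.2.2))
  left_inv _ := rfl
  right_inv _ := rfl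

/-- Bob's last permutation: store the channel qubit and write the output to the channel. -/
def outPerm {S : Type} (o : S → Bool → Bool → Bool) : Equiv.Perm (Bool × (S × Bool × Bool)) where
  toFun p := (xor p.2.2.2 (o p.2.1 p.2.2.1 p.1), (p.2.1, p.2.2.1, p.1))
  invFun p := (p.2.2.2, (p.2.1, p.2.2.1, xor p.1 (o p.2.1 p.2.2.1 p.2.2.2)))
  left_inv p := by
    obtain ⟨q, s, μ, ν⟩ := p
    simp
  right_inv p := by
    obtain ⟨q, s, μ, ν⟩ := p
    simp

/-- The four-turn quantum protocol simulating a public-coin protocol in which Alice sends the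
two bits `m₀ x s`, `m₁ x s` and Bob outputs `o y s (m₀ x s) (m₁ x s)`, with `s` shared and
uniformly random in `S`. -/
noncomputable def simProtocol {X Y : Type} (S : Type) [Fintype S] [DecidableEq S] [Nonempty S]
    (m₀ m₁ : X → S → Bool) (o : Y → S → Bool → Bool → Bool) : QProtocol X Y where
  A := S
  B := S × Bool × Bool
  init := cl ((1 / Real.sqrt (Fintype.card S) : ℝ) : ℂ) (fun _ => false)
    (fun s => (s, false, false)) |> fun ψ a b => ψ a false b
  init_norm := by
    have h := prob_cl (S := S) (B := S × Bool × Bool) ((1 / Real.sqrt (Fintype.card S) : ℝ) : ℂ)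
      (fun _ => false) (fun s => (s, false, false)) false
    simp only
    rw [h]
    have hc : (0 : ℝ) < Fintype.card S := by
      exact_mod_cast Fintype.card_pos
    simp only [Finset.filter_true, Finset.card_univ, Complex.norm_real, Real.norm_eq_abs, sq_abs,
      one_div, inv_pow, Real.sq_sqrt hc.le]
    field_simp
  aliceFirst := true
  turns := 4
  UA t x := if t = 0 then permM (xorPerm (m₀ x)) else permM (xorPerm (m₁ x))
  UA_unitary t x := by
    split_ifs <;> exact permM_unitary _
  UB t y := if t = 1 then permM (swapPerm S) else permM (outPerm (o y))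
  UB_unitary t y := by
    split_ifs <;> exact permM_unitary _

theorem sim_outputProb {X Y : Type} (S : Type) [Fintype S] [DecidableEq S] [Nonempty S]
    (m₀ m₁ : X → S → Bool) (o : Y → S → Bool → Bool → Bool) (x : X) (y : Y) (r : Bool) :
    (simProtocol S m₀ m₁ o).outputProb x y r =
      ((Finset.univ.filter fun s => o y s (m₀ x s) (m₁ x s) = r).card : ℝ) / Fintype.card S := by
  set c : ℂ := ((1 / Real.sqrt (Fintype.card S) : ℝ) : ℂ) with hcdef
  have h0 : (simProtocol S m₀ m₁ o).state x y 0 =
      cl c (fun _ => false) (fun s => ((s, false, false) : S × Bool × Bool)) := by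
    funext a q b
    simp only [QProtocol.state, simProtocol, cl]
    cases q <;> simp [hcdef]
  have h1 : (simProtocol S m₀ m₁ o).state x y 1 =
      cl c (fun s => m₀ x s) (fun s => ((s, false, false) : S × Bool × Bool)) := by
    funext a q b
    rw [QProtocol.state, h0]
    simp only [simProtocol]
    rw [if_pos (by simp)]
    simp only [if_true]
    exact stepA c _ _ (xorPerm (m₀ x)) _ (fun s => by simp [xorPerm]) (fun p => rfl) a q b
  have h2 : (simProtocol S m₀ m₁ o).state x y 2 =
      cl c (fun _ => false) (fun s => ((s, m₀ x s, false) : S × Bool × Bool)) := by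
    funext a q b
    rw [QProtocol.state, h1]
    simp only [simProtocol]
    rw [if_neg (by simp)]
    simp only [if_true]
    exact stepB c _ _ (swapPerm S) _ _ (fun s => by simp [swapPerm]) a q b
  have h3 : (simProtocol S m₀ m₁ o).state x y 3 =
      cl c (fun s => m₁ x s) (fun s => ((s, m₀ x s, false) : S × Bool × Bool)) := by
    funext a q b
    rw [QProtocol.state, h2]
    simp only [simProtocol]
    rw [if_pos (by simp)]
    rw [if_neg (by norm_num)]
    exact stepA c _ _ (xorPerm (m₁ x)) _ (fun s => by simp [xorPerm]) (fun p => rfl) a q b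
  have h4 : (simProtocol S m₀ m₁ o).state x y 4 =
      cl c (fun s => o y s (m₀ x s) (m₁ x s))
        (fun s => ((s, m₀ x s, m₁ x s) : S × Bool × Bool)) := by
    funext a q b
    rw [QProtocol.state, h3]
    simp only [simProtocol]
    rw [if_neg (by simp)]
    rw [if_neg (by norm_num)]
    exact stepB c _ _ (outPerm (o y)) _ _ (fun s => by simp [outPerm]) a q b
  have h5 : (simProtocol S m₀ m₁ o).outputProb x y r =
      ∑ a : S, ∑ b : S × Bool × Bool, ‖cl c (fun s => o y s (m₀ x s) (m₁ x s))
        (fun s => ((s, m₀ x s, m₁ x s) : S × Bool × Bool)) a r b‖ ^ 2 := by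
    rw [← h4]
    rfl
  rw [h5, prob_cl]
  have hc : (0 : ℝ) < Fintype.card S := by
    exact_mod_cast Fintype.card_pos
  rw [hcdef, Complex.norm_real, Real.norm_eq_abs, sq_abs, one_div, inv_pow, Real.sq_sqrt hc.le]
  rfl

/-! ### The public-coin protocol for `f₁(x ∧ y)` -/

/-- The shared random string: a random string of `n` bits and a random element of `Fin 3`. -/
abbrev Coins (n : ℕ) : Type := (Fin n → Bool) × Fin 3

/-- Alice's first bit: does `x` have exactly one zero? -/
def m₀ {n : ℕ} (x : Fin n → Bool) (_ : Coins n) : Bool := decide ((zeros x).card = 1)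

/-- Alice's second bit: if `x` has exactly one zero, the random bit at its position;
otherwise, whether `x` has no zero. -/
def m₁ {n : ℕ} (x : Fin n → Bool) (s : Coins n) : Bool :=
  if (zeros x).card = 1 then decide (∃ i ∈ zeros x, s.1 i = true) else decide ((zeros x).card = 0)

/-- Bob's output. -/
def out {n : ℕ} (y : Fin n → Bool) (s : Coins n) (μ₀ μ₁ : Bool) : Bool :=
  if 2 ≤ (zeros y).card then false
  else if μ₀ = false then μ₁
  else if (zeros y).card = 0 then true
  else decide (s.2 ≠ 0) && decide (μ₁ = decide (∃ j ∈ zeros y, s.1 j = true))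

theorem card_coins (n : ℕ) : Fintype.card (Coins n) = 3 * 2 ^ n := by
  simp [Coins, mul_comm]

theorem card_hash_eq {n : ℕ} (i j : Fin n) (hij : i ≠ j) :
    2 * (Finset.univ.filter fun h : Fin n → Bool => h i = h j).card = 2 ^ n := by
  have h1 : (Finset.univ.filter fun h : Fin n → Bool => h i = h j).card =
      (Finset.univ.filter fun h : Fin n → Bool => ¬ h i = h j).card := by
    refine Finset.card_bij' (fun h _ => Function.update h i (!(h i)))
      (fun h _ => Function.update h i (!(h i))) ?_ ?_ ?_ ?_
    · intro h hh
      rw [Finset.mem_filter] at hh ⊢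
      refine ⟨Finset.mem_univ _, ?_⟩
      rw [Function.update_self, Function.update_of_ne (Ne.symm hij), hh.2]
      simp
    · intro h hh
      rw [Finset.mem_filter] at hh ⊢
      refine ⟨Finset.mem_univ _, ?_⟩
      rw [Function.update_self, Function.update_of_ne (Ne.symm hij)]
      have := hh.2
      revert this
      cases h i <;> cases h j <;> simp
    · intro h _
      simp
    · intro h _
      simp
  have h2 := Finset.card_filter_add_card_filter_not (s := (Finset.univ : Finset (Fin n → Bool)))
    (fun h => h i = h j)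
  rw [Finset.card_univ] at h2
  simp only [Fintype.card_pi, Fintype.card_bool, Finset.prod_const, Finset.card_univ,
    Fintype.card_fin] at h2
  omega

/-- The set of coin outcomes for which the protocol is right contains two thirds of all. -/
theorem card_good {n : ℕ} (x y : Fin n → Bool) :
    2 * 2 ^ n ≤ (Finset.univ.filter fun s : Coins n =>
      out y s (m₀ x s) (m₁ x s) = andComp (f₁ n) x y).card := by
  have hF : andComp (f₁ n) x y = decide ((zeros x ∪ zeros y).card ≤ 1) := by
    simp only [andComp, f₁, zeros_and]
  rw [hF]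
  -- in most cases the protocol is always right
  have hall : (∀ s : Coins n, out y s (m₀ x s) (m₁ x s) =
      decide ((zeros x ∪ zeros y).card ≤ 1)) → 2 * 2 ^ n ≤ (Finset.univ.filter
      fun s : Coins n => out y s (m₀ x s) (m₁ x s) =
        decide ((zeros x ∪ zeros y).card ≤ 1)).card := by
    intro h
    rw [Finset.filter_true_of_mem (fun s _ => h s), Finset.card_univ, card_coins]
    omega
  by_cases hy2 : 2 ≤ (zeros y).card
  · apply hall
    intro s
    have h1 : (zeros y).card ≤ (zeros x ∪ zeros y).card :=
      Finset.card_le_card Finset.subset_union_right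
    simp only [out, hy2, if_true]
    symm
    rw [decide_eq_false_iff_not]
    omega
  by_cases hx1 : (zeros x).card = 1
  swap
  · apply hall
    intro s
    simp only [out, hy2, if_false, m₀, m₁, hx1, decide_false, if_true]
    by_cases hx0 : (zeros x).card = 0
    · rw [Finset.card_eq_zero] at hx0
      simp only [hx0, Finset.card_empty, decide_true, Finset.empty_union]
      symm
      rw [decide_eq_true_iff]
      omega
    · have h1 : (zeros x).card ≤ (zeros x ∪ zeros y).card :=
        Finset.card_le_card Finset.subset_union_left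
      simp only [hx0, decide_false]
      symm
      rw [decide_eq_false_iff_not]
      omega
  by_cases hy0 : (zeros y).card = 0
  · apply hall
    intro s
    simp only [out, m₀, m₁, hx1, decide_true, if_true, hy0]
    rw [Finset.card_eq_zero] at hy0
    simp [hy0, hx1]
  -- both have exactly one zero
  have hy1 : (zeros y).card = 1 := by omega
  obtain ⟨i, hi⟩ := Finset.card_eq_one.1 hx1
  obtain ⟨j, hj⟩ := Finset.card_eq_one.1 hy1
  have hout : ∀ s : Coins n, out y s (m₀ x s) (m₁ x s) =
      (decide (s.2 ≠ 0) && decide (s.1 i = s.1 j)) := by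
    intro s
    simp only [out, m₀, m₁, hi, hj]
    simp only [Finset.card_singleton, decide_true, if_true, Finset.mem_singleton,
      exists_eq_left]
    norm_num
  simp only [hout, hi, hj]
  by_cases hij : i = j
  · subst hij
    simp only [Finset.union_idempotent, Finset.card_singleton, le_refl, decide_true,
      Bool.and_true, decide_eq_true_eq]
    have h1 : (Finset.univ.filter fun s : Coins n => s.2 ≠ 0) =
        (Finset.univ : Finset (Fin n → Bool)) ×ˢ (Finset.univ.filter fun k : Fin 3 => k ≠ 0) := by
      ext ⟨a, b⟩
      simp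
    rw [h1, Finset.card_product]
    have h2 : (Finset.univ.filter fun k : Fin 3 => k ≠ 0).card = 2 := by decide
    rw [h2]
    simp [mul_comm]
  · have h3 : ({i} ∪ {j} : Finset (Fin n)).card = 2 := by
      rw [Finset.card_union_of_disjoint (by simpa using hij)]
      simp
    have h4 : decide (({i} ∪ {j} : Finset (Fin n)).card ≤ 1) = false := by
      rw [h3]; rfl
    simp only [h4]
    have h5 := Finset.card_filter_add_card_filter_not (s := (Finset.univ : Finset (Coins n)))
      (fun s => (decide (s.2 ≠ 0) && decide (s.1 i = s.1 j)) = false)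
    have h6 : (Finset.univ.filter fun s : Coins n =>
        ¬ (decide (s.2 ≠ 0) && decide (s.1 i = s.1 j)) = false) =
        (Finset.univ.filter fun h : Fin n → Bool => h i = h j) ×ˢ
          (Finset.univ.filter fun k : Fin 3 => k ≠ 0) := by
      ext ⟨a, b⟩
      simp [and_comm]
    have h2 : (Finset.univ.filter fun k : Fin 3 => k ≠ 0).card = 2 := by decide
    rw [h6, Finset.card_product, h2, Finset.card_univ, card_coins] at h5
    have h7 := card_hash_eq i j hij
    omega

theorem Qstar_le (n : ℕ) : Qstar (andComp (f₁ n)) ≤ 4 := by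
  apply Nat.sInf_le
  refine ⟨simProtocol (Coins n) m₀ m₁ out, ?_, rfl⟩
  intro x y
  rw [sim_outputProb, card_coins]
  have h := card_good x y
  have h' : (2 : ℝ) * 2 ^ n ≤ ((Finset.univ.filter fun s : Coins n =>
      out y s (m₀ x s) (m₁ x s) = andComp (f₁ n) x y).card : ℝ) := by
    exact_mod_cast h
  have hpos : (0 : ℝ) < 2 ^ n := by positivity
  rw [div_le_div_iff₀ (by norm_num) (by push_cast; positivity)]
  push_cast
  linarith

/-- **Main result.** No function `Φ` of `Q*_{1/3}(F)` (in particular no polynomial) bounds
`D(F)` for all AND-composed functions `F(x, y) = f(x ∧ y)`. -/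
theorem result : ∀ Φ : ℕ → ℝ, ∃ n : ℕ, 1 ≤ n ∧ ∃ f : (Fin n → Bool) → Bool,
    Φ (Qstar (andComp f)) < (D (andComp f) : ℝ) := by
  intro Φ
  obtain ⟨M, hM⟩ := exists_nat_gt (∑ k ∈ Finset.range 5, |Φ k|)
  refine ⟨2 ^ M, Nat.one_le_two_pow, f₁ (2 ^ M), ?_⟩
  have h1 : (M : ℝ) ≤ D (andComp (f₁ (2 ^ M))) := by exact_mod_cast le_D M
  have h2 := Qstar_le (2 ^ M)
  refine lt_of_lt_of_le (lt_of_le_of_lt ?_ hM) h1
  refine (le_abs_self _).trans ?_
  exact Finset.single_le_sum (f := fun k => |Φ k|) (fun k _ => abs_nonneg _)
    (Finset.mem_range.2 (by omega))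

/-- The literal negated form of the question. -/
theorem negated_form : ∀ P : Polynomial ℝ, ∃ n : ℕ, 1 ≤ n ∧ ∃ f : (Fin n → Bool) → Bool,
    P.eval (Qstar (andComp f) : ℝ) < (D (andComp f) : ℝ) :=
  fun P => result fun k => P.eval (k : ℝ)

/-- The literal negative answer to the question. -/
theorem negative_answer : ¬ ∃ P : Polynomial ℝ, ∀ n : ℕ, 1 ≤ n → ∀ f : (Fin n → Bool) → Bool,
    (D (andComp f) : ℝ) ≤ P.eval (Qstar (andComp f) : ℝ) := by
  rintro ⟨P, hP⟩
  obtain ⟨n, hn, f, hf⟩ := negated_form P
  exact absurd (hP n hn f) (not_le.2 hf)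

end Pool.Agent.Results.MP_799357_lc.DetVsQuantum
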